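import Mathlib

/-!
# MP_515085_an : dense irregular manifold without dense uniform Li-Yorke chaos

For `𝕜 = ℝ` or `ℂ` we build a separable Banach space `X` and a bounded operator `T` on `X` admitting a
dense irregular manifold, such that `T` is not densely uniformly Li-Yorke chaotic.

Construction. Let `a j` enumerate, each infinitely often, countably many pairs of polynomials with
constant coefficient of size at least one, dense enough. Map a pair of polynomials `x` to the bounded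
function `(j, l) ↦ 2^{-(P j - l)} [z^l] (a j · x)` for `l < P (j+1)`, with `P` growing fast. `X` is the
closure of the image and `T` is induced by multiplication by `z`. If `a j` is orthogonal to (an
approximation of) `x`, then `T^(P j) x` is small; if `a j` is a large constant, it is large. But for
every `n` with `P j ≤ n < P (j+1)` one has `|a j (0) · x (0)| ≤ ‖T^n x‖`.
-/

set_option autoImplicit false
set_option linter.unusedSectionVars false

namespace Pool.Agent.Results.MP_515085_an.SeparableExample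

open Polynomial Filter Topology

section Defs

variable {𝕜 : Type*} [RCLike 𝕜] {X : Type*} [NormedAddCommGroup X] [NormedSpace 𝕜 X]

/-- `x` is irregular for `T`: `liminf ‖T^n x‖ = 0` and `limsup ‖T^n x‖ = ∞`. -/
def IsIrregular (T : X →L[𝕜] X) (x : X) : Prop :=
  liminf (fun n : ℕ => ‖(T ^ n) x‖ₑ) atTop = 0 ∧ limsup (fun n : ℕ => ‖(T ^ n) x‖ₑ) atTop = ⊤

/-- `T` admits a dense irregular manifold. -/
def AdmitsDenseIrregularManifold (T : X →L[𝕜] X) : Prop :=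
  ∃ Y : Submodule 𝕜 X, Dense (Y : Set X) ∧ ∀ y ∈ Y, y ≠ 0 → IsIrregular T y

/-- `S` is uniformly Li-Yorke scrambled for `T`. -/
def UniformlyScrambled (T : X →L[𝕜] X) (S : Set X) : Prop :=
  S.Nontrivial ∧ ∃ p q : ℕ → ℕ, (∀ n, 0 < p n) ∧ (∀ n, 0 < q n) ∧
    ∀ x ∈ S, ∀ y ∈ S, x ≠ y →
      Tendsto (fun n => ‖(T ^ p n) x - (T ^ p n) y‖) atTop (𝓝 0) ∧
      Tendsto (fun n => ‖(T ^ q n) x - (T ^ q n) y‖) atTop atTop

/-- `T` is densely uniformly Li-Yorke chaotic. -/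
def DenselyUniformlyLiYorkeChaotic (T : X →L[𝕜] X) : Prop :=
  ∃ S : Set X, Dense S ∧ ¬ S.Countable ∧ UniformlyScrambled T S

end Defs

section Poly

variable {𝕜 : Type} [RCLike 𝕜]

/-- Sum of the norms of the coefficients. -/
noncomputable def LL (p : 𝕜[X]) : ℝ := ∑ k ∈ p.support, ‖p.coeff k‖

lemma LL_nonneg (p : 𝕜[X]) : 0 ≤ LL p := Finset.sum_nonneg fun _ _ => norm_nonneg _

lemma coeff_le_LL (p : 𝕜[X]) (k : ℕ) : ‖p.coeff k‖ ≤ LL p := by
  by_cases hk : k ∈ p.support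
  · exact Finset.single_le_sum (f := fun k => ‖p.coeff k‖) (fun _ _ => norm_nonneg _) hk
  · rw [Polynomial.notMem_support_iff] at hk
    rw [hk, norm_zero]; exact LL_nonneg p

lemma coeff_mul_le (p q : 𝕜[X]) (η : ℝ) (hp : ∀ k, ‖p.coeff k‖ ≤ η) (k : ℕ) :
    ‖(p * q).coeff k‖ ≤ η * LL q := by
  have hη : 0 ≤ η := (norm_nonneg _).trans (hp 0)
  rw [Polynomial.coeff_mul]
  calc ‖∑ x ∈ Finset.HasAntidiagonal.antidiagonal k, p.coeff x.1 * q.coeff x.2‖
      ≤ ∑ x ∈ Finset.HasAntidiagonal.antidiagonal k, ‖p.coeff x.1 * q.coeff x.2‖ := norm_sum_le _ _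
    _ ≤ ∑ x ∈ Finset.HasAntidiagonal.antidiagonal k, η * ‖q.coeff x.2‖ := by
        refine Finset.sum_le_sum fun x _ => ?_
        rw [norm_mul]
        exact mul_le_mul_of_nonneg_right (hp _) (norm_nonneg _)
    _ = η * ∑ x ∈ Finset.HasAntidiagonal.antidiagonal k, ‖q.coeff x.2‖ := by rw [Finset.mul_sum]
    _ = η * ∑ j ∈ Finset.range (k + 1), ‖q.coeff j‖ := by
        congr 1
        rw [Finset.Nat.sum_antidiagonal_eq_sum_range_succ (fun _ j => ‖q.coeff j‖),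
          Finset.sum_range_reflect (fun j => ‖q.coeff j‖) (k + 1) |>.symm]
        simp
    _ ≤ η * LL q := by
        refine mul_le_mul_of_nonneg_left ?_ hη
        rw [LL]
        have h1 : ∑ j ∈ Finset.range (k + 1), ‖q.coeff j‖ =
            ∑ j ∈ (Finset.range (k + 1)).filter (fun j => j ∈ q.support), ‖q.coeff j‖ := by
          rw [Finset.sum_filter_of_ne]
          intro j _ hj
          rw [Polynomial.mem_support_iff]
          intro h0
          exact hj (by rw [h0, norm_zero])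
        rw [h1]
        refine Finset.sum_le_sum_of_subset_of_nonneg ?_ (fun _ _ _ => norm_nonneg _)
        intro j hj
        exact (Finset.mem_filter.mp hj).2

/-- pairing -/
noncomputable def dotp (a x : 𝕜[X] × 𝕜[X]) : 𝕜[X] := a.1 * x.1 + a.2 * x.2

/-- A countable set of polynomials approximating all polynomials. -/
def Q1 (𝕜 : Type) [RCLike 𝕜] (D : ℕ → 𝕜) : Set 𝕜[X] :=
  ⋃ d : ℕ, Set.range fun v : Fin d → ℕ => ∑ k : Fin d, monomial k.1 (D (v k))

lemma Q1_countable (D : ℕ → 𝕜) : (Q1 𝕜 D).Countable :=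
  Set.countable_iUnion fun _ => Set.countable_range _

lemma Q1_approx (D : ℕ → 𝕜) (hD : DenseRange D) (p : 𝕜[X]) (η : ℝ) (hη : 0 < η) :
    ∃ q ∈ Q1 𝕜 D, ∀ k, ‖(q - p).coeff k‖ ≤ η := by
  have h1 : ∀ k : Fin (p.natDegree + 1), ∃ n, ‖D n - p.coeff k.1‖ < η := by
    intro k
    obtain ⟨n, hn⟩ := hD.exists_dist_lt (p.coeff k.1) hη
    exact ⟨n, by rwa [dist_comm, dist_eq_norm] at hn⟩
  choose v hv using h1
  refine ⟨∑ k : Fin (p.natDegree + 1), monomial k.1 (D (v k)), Set.mem_iUnion.mpr ⟨_, v, rfl⟩, ?_⟩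
  intro k
  rw [coeff_sub, finsetSum_coeff]
  by_cases hk : k < p.natDegree + 1
  · rw [Finset.sum_eq_single (⟨k, hk⟩ : Fin (p.natDegree + 1))]
    · rw [coeff_monomial, if_pos rfl]
      exact (hv ⟨k, hk⟩).le
    · intro b _ hb
      rw [coeff_monomial, if_neg]
      intro h
      exact hb (Fin.ext h)
    · intro h; exact absurd (Finset.mem_univ _) h
  · have h2 : p.coeff k = 0 := coeff_eq_zero_of_natDegree_lt (by omega)
    rw [h2, Finset.sum_eq_zero]
    · simpa using hη.le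
    · intro b _
      rw [coeff_monomial, if_neg]
      have := b.2
      omega

/-- The set of pairs used. -/
def Q2 (𝕜 : Type) [RCLike 𝕜] (D : ℕ → 𝕜) : Set (𝕜[X] × 𝕜[X]) :=
  {G | (G.1 ∈ Q1 𝕜 D ∧ G.2 ∈ Q1 𝕜 D ∨ (G.1 ∈ Q1 𝕜 D ∧ -G.2 ∈ Q1 𝕜 D)) ∧
    (1 ≤ ‖G.1.coeff 0‖ ∨ 1 ≤ ‖G.2.coeff 0‖)}

lemma zero_mem_Q1 (D : ℕ → 𝕜) : (0 : 𝕜[X]) ∈ Q1 𝕜 D :=
  Set.mem_iUnion.mpr ⟨0, fun i => i.elim0, by simp⟩

lemma const_mem_Q1 (D : ℕ → 𝕜) (n : ℕ) : (C (D n) : 𝕜[X]) ∈ Q1 𝕜 D :=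
  Set.mem_iUnion.mpr ⟨1, fun _ => n, by simp⟩

lemma Q2_countable (D : ℕ → 𝕜) : (Q2 𝕜 D).Countable := by
  have h1 : ((Q1 𝕜 D) ×ˢ (Q1 𝕜 D)).Countable := (Q1_countable D).prod (Q1_countable D)
  have h2 : ((fun G : 𝕜[X] × 𝕜[X] => (G.1, -G.2)) '' ((Q1 𝕜 D) ×ˢ (Q1 𝕜 D))).Countable := h1.image _
  refine (h1.union h2).mono ?_
  rintro G ⟨h | h, _⟩
  · exact Or.inl ⟨h.1, h.2⟩
  · exact Or.inr ⟨(G.1, -G.2), ⟨h.1, h.2⟩, by simp⟩

end Poly

/-- The combinatorial data of the construction. -/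
structure Data (𝕜 : Type) [RCLike 𝕜] where
  a : ℕ → 𝕜[X] × 𝕜[X]
  m : ℕ → ℕ
  P : ℕ → ℕ
  hm1 : ∀ j k, 2 ^ j * (‖(a j).1.coeff k‖ + ‖(a j).2.coeff k‖) ≤ (2 : ℝ) ^ m j
  hm2 : ∀ j, (a j).1.natDegree ≤ m j ∧ (a j).2.natDegree ≤ m j
  hP0 : P 0 = 0
  hP : ∀ j, P (j + 1) = P j + 2 * m (j + 1) + (j + 1) + 1
  ha : ∀ j, 1 ≤ ‖(a j).1.coeff 0‖ ∨ 1 ≤ ‖(a j).2.coeff 0‖
  happ : ∀ F : 𝕜[X] × 𝕜[X], (2 ≤ ‖F.1.coeff 0‖ ∨ 2 ≤ ‖F.2.coeff 0‖) → ∀ η > 0, ∀ N, ∃ j ≥ N,
    ∀ k, ‖((a j).1 - F.2).coeff k‖ ≤ η ∧ ‖((a j).2 + F.1).coeff k‖ ≤ η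
  hbig1 : ∀ R : ℝ, ∀ N, ∃ j ≥ N, ∃ c : 𝕜, R ≤ ‖c‖ ∧ a j = (C c, 0)
  hbig2 : ∀ R : ℝ, ∀ N, ∃ j ≥ N, ∃ c : 𝕜, R ≤ ‖c‖ ∧ a j = (0, C c)

section Existence

variable {𝕜 : Type} [RCLike 𝕜]

lemma exists_data : Nonempty (Data 𝕜) := by
  classical
  obtain ⟨D, hD⟩ := TopologicalSpace.exists_dense_seq 𝕜
  have hbig : ∀ R : ℝ, ∃ n, R ≤ ‖D n‖ := by
    intro R
    obtain ⟨n, hn⟩ := hD.exists_dist_lt (((|R| + 1 : ℝ)) : 𝕜) one_pos
    refine ⟨n, ?_⟩
    rw [dist_eq_norm] at hn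
    have h1 : ‖(((|R| + 1 : ℝ)) : 𝕜)‖ = |R| + 1 := by
      rw [RCLike.norm_ofReal, abs_of_nonneg (by positivity)]
    have h2 : ‖(((|R| + 1 : ℝ)) : 𝕜)‖ ≤ ‖(((|R| + 1 : ℝ)) : 𝕜) - D n‖ + ‖D n‖ := by
      have := norm_add_le ((((|R| + 1 : ℝ)) : 𝕜) - D n) (D n)
      simpa using this
    have h3 := le_abs_self R
    linarith
  -- enumeration
  have hne : (Q2 𝕜 D).Nonempty := by
    obtain ⟨n, hn⟩ := hbig 1
    exact ⟨(C (D n), 0), Or.inl ⟨const_mem_Q1 D n, zero_mem_Q1 D⟩, Or.inl (by simpa using hn)⟩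
  obtain ⟨s, hs⟩ := (Q2_countable D).exists_eq_range hne
  set a : ℕ → 𝕜[X] × 𝕜[X] := fun j => s (Nat.unpair j).1 with ha
  have hrep : ∀ G ∈ Q2 𝕜 D, ∀ N, ∃ j ≥ N, a j = G := by
    intro G hG N
    rw [hs] at hG
    obtain ⟨k, rfl⟩ := hG
    exact ⟨Nat.pair k N, Nat.right_le_pair k N, by simp [ha]⟩
  have hmem : ∀ j, a j ∈ Q2 𝕜 D := by
    intro j
    rw [hs]
    exact ⟨_, rfl⟩
  have hm : ∀ j, ∃ m : ℕ, (∀ k, 2 ^ j * (‖(a j).1.coeff k‖ + ‖(a j).2.coeff k‖) ≤ (2 : ℝ) ^ m) ∧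
      (a j).1.natDegree ≤ m ∧ (a j).2.natDegree ≤ m := by
    intro j
    obtain ⟨m0, hm0⟩ := pow_unbounded_of_one_lt (2 ^ j * (LL (a j).1 + LL (a j).2)) (one_lt_two (α := ℝ))
    refine ⟨max m0 (max (a j).1.natDegree (a j).2.natDegree), ?_, ?_, ?_⟩
    · intro k
      have h1 := coeff_le_LL (a j).1 k
      have h2 := coeff_le_LL (a j).2 k
      calc 2 ^ j * (‖(a j).1.coeff k‖ + ‖(a j).2.coeff k‖) ≤ 2 ^ j * (LL (a j).1 + LL (a j).2) := by
            gcongr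
        _ ≤ (2 : ℝ) ^ m0 := hm0.le
        _ ≤ _ := pow_le_pow_right₀ one_le_two (le_max_left _ _)
    · exact (le_max_left _ _).trans (le_max_right _ _)
    · exact (le_max_right _ _).trans (le_max_right _ _)
  choose m hm1 hm2 hm3 using hm
  refine ⟨{
    a := a
    m := m
    P := fun j => Nat.rec 0 (fun j p => p + 2 * m (j + 1) + (j + 1) + 1) j
    hm1 := hm1
    hm2 := fun j => ⟨hm2 j, hm3 j⟩
    hP0 := rfl
    hP := fun j => rfl
    ha := fun j => (hmem j).2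
    happ := ?_
    hbig1 := ?_
    hbig2 := ?_ }⟩
  · intro F hF η hη N
    obtain ⟨q1, hq1, hq1'⟩ := Q1_approx D hD F.1 (min η 1) (lt_min hη one_pos)
    obtain ⟨q2, hq2, hq2'⟩ := Q1_approx D hD F.2 (min η 1) (lt_min hη one_pos)
    have hG : (q2, -q1) ∈ Q2 𝕜 D := by
      refine ⟨Or.inr ⟨hq2, by simpa using hq1⟩, ?_⟩
      have key : ∀ (q p : 𝕜[X]), (∀ k, ‖(q - p).coeff k‖ ≤ min η 1) → 2 ≤ ‖p.coeff 0‖ → 1 ≤ ‖q.coeff 0‖ := by
        intro q p h1 h2
        have h3 := (h1 0).trans (min_le_right _ _)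
        rw [coeff_sub] at h3
        have h4 : ‖p.coeff 0‖ ≤ ‖q.coeff 0 - p.coeff 0‖ + ‖q.coeff 0‖ := by
          have := norm_sub_le (q.coeff 0) (q.coeff 0 - p.coeff 0)
          rw [sub_sub_cancel] at this
          linarith
        linarith
      rcases hF with h | h
      · right
        simpa using key q1 F.1 hq1' h
      · left
        exact key q2 F.2 hq2' h
    obtain ⟨j, hj, hja⟩ := hrep _ hG N
    refine ⟨j, hj, fun k => ?_⟩
    rw [hja]
    refine ⟨(hq2' k).trans (min_le_left _ _), ?_⟩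
    have : -q1 + F.1 = -(q1 - F.1) := by ring
    simp only [this, coeff_neg, norm_neg]
    exact (hq1' k).trans (min_le_left _ _)
  · intro R N
    obtain ⟨n, hn⟩ := hbig (max R 1)
    have hG : (C (D n), 0) ∈ Q2 𝕜 D :=
      ⟨Or.inl ⟨const_mem_Q1 D n, zero_mem_Q1 D⟩, Or.inl (by simpa using (le_max_right R 1).trans hn)⟩
    obtain ⟨j, hj, hja⟩ := hrep _ hG N
    exact ⟨j, hj, D n, (le_max_left _ _).trans hn, hja⟩
  · intro R N
    obtain ⟨n, hn⟩ := hbig (max R 1)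
    have hG : ((0 : 𝕜[X]), C (D n)) ∈ Q2 𝕜 D :=
      ⟨Or.inl ⟨zero_mem_Q1 D, const_mem_Q1 D n⟩, Or.inr (by simpa using (le_max_right R 1).trans hn)⟩
    obtain ⟨j, hj, hja⟩ := hrep _ hG N
    exact ⟨j, hj, D n, (le_max_left _ _).trans hn, hja⟩

end Existence

section Construction

variable {𝕜 : Type} [RCLike 𝕜] (d : Data 𝕜)

/-- the ambient space of bounded functions -/
abbrev EE (𝕜 : Type) [RCLike 𝕜] : Type := BoundedContinuousFunction (ℕ × ℕ) 𝕜

/-- The values of the embedding. -/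
noncomputable def Jraw (x : 𝕜[X] × 𝕜[X]) (il : ℕ × ℕ) : 𝕜 :=
  if il.2 < d.P (il.1 + 1) then ((2 : 𝕜) ^ (d.P il.1 - il.2))⁻¹ * (dotp (d.a il.1) x).coeff il.2 else 0

/-- total size of a pair -/
noncomputable def L2 (x : 𝕜[X] × 𝕜[X]) : ℝ := LL x.1 + LL x.2

lemma L2_nonneg (x : 𝕜[X] × 𝕜[X]) : 0 ≤ L2 x := add_nonneg (LL_nonneg _) (LL_nonneg _)

/-- multiplication by a power of the variable -/
noncomputable def sh (n : ℕ) (x : 𝕜[X] × 𝕜[X]) : 𝕜[X] × 𝕜[X] := (X ^ n * x.1, X ^ n * x.2)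

lemma dotp_sh (a x : 𝕜[X] × 𝕜[X]) (n : ℕ) : dotp a (sh n x) = X ^ n * dotp a x := by
  simp only [dotp, sh]; ring

lemma coeff_dotp_le (i : ℕ) (x : 𝕜[X] × 𝕜[X]) (l : ℕ) :
    ‖(dotp (d.a i) x).coeff l‖ ≤ 2 ^ d.m i / 2 ^ i * L2 x := by
  have h0 : ∀ k, ‖(d.a i).1.coeff k‖ + ‖(d.a i).2.coeff k‖ ≤ 2 ^ d.m i / 2 ^ i := by
    intro k
    rw [le_div_iff₀ (by positivity), mul_comm]
    exact d.hm1 i k
  have h1 : ∀ k, ‖(d.a i).1.coeff k‖ ≤ 2 ^ d.m i / 2 ^ i := fun k =>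
    (le_add_of_nonneg_right (norm_nonneg _)).trans (h0 k)
  have h2 : ∀ k, ‖(d.a i).2.coeff k‖ ≤ 2 ^ d.m i / 2 ^ i := fun k =>
    (le_add_of_nonneg_left (norm_nonneg _)).trans (h0 k)
  rw [dotp, coeff_add]
  refine (norm_add_le _ _).trans ?_
  rw [L2, mul_add]
  exact add_le_add (coeff_mul_le _ _ _ h1 l) (coeff_mul_le _ _ _ h2 l)

lemma coeff_dotp_zero (i : ℕ) (x : 𝕜[X] × 𝕜[X]) (dx : ℕ) (h1 : x.1.natDegree ≤ dx)
    (h2 : x.2.natDegree ≤ dx) (l : ℕ) (hl : d.m i + dx < l) : (dotp (d.a i) x).coeff l = 0 := by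
  rw [dotp, coeff_add, coeff_eq_zero_of_natDegree_lt, coeff_eq_zero_of_natDegree_lt, add_zero]
  · exact lt_of_le_of_lt (natDegree_mul_le.trans (add_le_add (d.hm2 i).2 h2)) hl
  · exact lt_of_le_of_lt (natDegree_mul_le.trans (add_le_add (d.hm2 i).1 h1)) hl

lemma P_step (i : ℕ) (hi : 0 < i) : d.P i = d.P (i - 1) + 2 * d.m i + i + 1 := by
  obtain ⟨k, rfl⟩ : ∃ k, i = k + 1 := ⟨i - 1, by omega⟩
  rw [d.hP k]; simp

lemma P_lt_succ (j : ℕ) : d.P j < d.P (j + 1) := by rw [d.hP j]; omega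

lemma P_strictMono : StrictMono d.P := strictMono_nat_of_lt_succ (P_lt_succ d)

/-- the tail estimate -/
lemma Jraw_sh_small (x : 𝕜[X] × 𝕜[X]) (dx : ℕ) (h1 : x.1.natDegree ≤ dx)
    (h2 : x.2.natDegree ≤ dx) (j i n l : ℕ) (hji : j < i) (hi : dx ≤ i) (hn : n ≤ d.P j) :
    ‖Jraw d (sh n x) (i, l)‖ ≤ 1 / 2 ^ i * L2 x := by
  have hL := L2_nonneg x
  unfold Jraw
  simp only
  split_ifs with hl
  · rw [dotp_sh, coeff_X_pow_mul']
    split_ifs with hnl
    · by_cases hbig : d.m i + dx < l - n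
      · rw [coeff_dotp_zero d i x dx h1 h2 _ hbig]
        simp only [mul_zero, norm_zero]
        positivity
      · have hle : l ≤ d.P j + d.m i + dx := by omega
        have hPj : d.P j ≤ d.P (i - 1) := (P_strictMono d).monotone (by omega)
        have hPi := P_step d i (by omega)
        have hexp : d.m i ≤ d.P i - l := by omega
        rw [norm_mul, norm_inv, norm_pow, RCLike.norm_ofNat]
        calc ((2 : ℝ) ^ (d.P i - l))⁻¹ * ‖(dotp (d.a i) x).coeff (l - n)‖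
            ≤ ((2 : ℝ) ^ d.m i)⁻¹ * (2 ^ d.m i / 2 ^ i * L2 x) := by
              gcongr
              · exact one_le_two
              · exact coeff_dotp_le d i x _
          _ = 1 / 2 ^ i * L2 x := by
              field_simp
    · simp only [mul_zero, norm_zero]
      positivity
  · simp only [norm_zero]
    positivity

lemma norm_inv_two_pow_le (k : ℕ) : ‖((2 : 𝕜) ^ k)⁻¹‖ ≤ 1 := by
  rw [norm_inv, norm_pow, RCLike.norm_ofNat]
  exact inv_le_one_of_one_le₀ (one_le_pow₀ one_le_two)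

lemma Jraw_crude (x : 𝕜[X] × 𝕜[X]) (i l : ℕ) : ‖Jraw d x (i, l)‖ ≤ 2 ^ d.m i / 2 ^ i * L2 x := by
  have hL := L2_nonneg x
  unfold Jraw
  simp only
  split_ifs with hl
  · rw [norm_mul]
    calc _ ≤ 1 * ‖(dotp (d.a i) x).coeff l‖ :=
          mul_le_mul_of_nonneg_right (norm_inv_two_pow_le _) (norm_nonneg _)
      _ ≤ _ := by rw [one_mul]; exact coeff_dotp_le d i x l
  · simp only [norm_zero]
    positivity

lemma sh_zero (x : 𝕜[X] × 𝕜[X]) : sh 0 x = x := by simp [sh]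

lemma sh_sh (m n : ℕ) (x : 𝕜[X] × 𝕜[X]) : sh m (sh n x) = sh (m + n) x := by
  simp [sh, pow_add, mul_assoc]

lemma Jraw_bounded (x : 𝕜[X] × 𝕜[X]) : ∃ K : ℝ, ∀ il, ‖Jraw d x il‖ ≤ K := by
  set dx := max x.1.natDegree x.2.natDegree with hdx
  have hL := L2_nonneg x
  refine ⟨(1 + ∑ i ∈ Finset.range (dx + 1), (2 : ℝ) ^ d.m i / 2 ^ i) * L2 x, ?_⟩
  rintro ⟨i, l⟩
  have hs : 0 ≤ ∑ i ∈ Finset.range (dx + 1), (2 : ℝ) ^ d.m i / 2 ^ i :=
    Finset.sum_nonneg fun _ _ => by positivity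
  by_cases hi : i < dx + 1
  · refine (Jraw_crude d x i l).trans ?_
    refine mul_le_mul_of_nonneg_right ?_ hL
    have := Finset.single_le_sum (f := fun i => (2 : ℝ) ^ d.m i / 2 ^ i) (fun _ _ => by positivity)
      (Finset.mem_range.mpr hi)
    linarith
  · have h := Jraw_sh_small d x dx (le_max_left _ _) (le_max_right _ _) 0 i 0 l (by omega) (by omega)
      (Nat.zero_le _)
    rw [sh_zero] at h
    refine h.trans ?_
    refine mul_le_mul_of_nonneg_right ?_ hL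
    have h2 : (1 : ℝ) / 2 ^ i ≤ 1 := by
      rw [div_le_one (by positivity)]
      exact one_le_pow₀ one_le_two
    linarith

/-- The embedding. -/
noncomputable def J : (𝕜[X] × 𝕜[X]) →ₗ[𝕜] EE 𝕜 where
  toFun x := BoundedContinuousFunction.ofNormedAddCommGroupDiscrete (Jraw d x)
    (Jraw_bounded d x).choose (Jraw_bounded d x).choose_spec
  map_add' x y := by
    ext il
    simp only [BoundedContinuousFunction.coe_add, Pi.add_apply,
      BoundedContinuousFunction.coe_ofNormedAddCommGroupDiscrete]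
    unfold Jraw
    have : dotp (d.a il.1) (x + y) = dotp (d.a il.1) x + dotp (d.a il.1) y := by
      simp only [dotp, Prod.fst_add, Prod.snd_add]; ring
    rw [this, coeff_add]
    split_ifs
    · ring
    · simp
  map_smul' c x := by
    ext il
    simp only [BoundedContinuousFunction.coe_smul, smul_eq_mul, RingHom.id_apply,
      BoundedContinuousFunction.coe_ofNormedAddCommGroupDiscrete]
    unfold Jraw
    have : dotp (d.a il.1) (c • x) = c • dotp (d.a il.1) x := by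
      simp only [dotp, Prod.smul_fst, Prod.smul_snd, mul_smul_comm, smul_add]
    rw [this, coeff_smul, smul_eq_mul]
    split_ifs
    · ring
    · simp

lemma J_apply (x : 𝕜[X] × 𝕜[X]) (il : ℕ × ℕ) : J d x il = Jraw d x il := rfl

/-- The values of the weighted shift. -/
noncomputable def Sraw (f : ℕ × ℕ → 𝕜) (il : ℕ × ℕ) : 𝕜 :=
  if il.2 = 0 ∨ d.P (il.1 + 1) ≤ il.2 then 0 else
    (if il.2 ≤ d.P il.1 then 2 else 1) * f (il.1, il.2 - 1)

lemma Sraw_le (f : EE 𝕜) (il : ℕ × ℕ) : ‖Sraw d f il‖ ≤ 2 * ‖f‖ := by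
  unfold Sraw
  have h := f.norm_coe_le_norm (il.1, il.2 - 1)
  have h0 := norm_nonneg f
  split_ifs with h1 h2
  · simp only [norm_zero]; positivity
  · rw [norm_mul, RCLike.norm_ofNat]
    exact mul_le_mul_of_nonneg_left h zero_le_two
  · rw [one_mul]; linarith

/-- The weighted shift. -/
noncomputable def SS : EE 𝕜 →L[𝕜] EE 𝕜 :=
  LinearMap.mkContinuous
    { toFun := fun f => BoundedContinuousFunction.ofNormedAddCommGroupDiscrete (Sraw d f)
        (2 * ‖f‖) (Sraw_le d f)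
      map_add' := by
        intro f g
        ext il
        simp only [BoundedContinuousFunction.coe_add, Pi.add_apply,
          BoundedContinuousFunction.coe_ofNormedAddCommGroupDiscrete]
        unfold Sraw
        split_ifs
        · simp
        · simp only [Pi.add_apply]; ring
        · simp only [Pi.add_apply]; ring
      map_smul' := by
        intro c f
        ext il
        simp only [BoundedContinuousFunction.coe_smul, smul_eq_mul, RingHom.id_apply,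
          BoundedContinuousFunction.coe_ofNormedAddCommGroupDiscrete]
        unfold Sraw
        split_ifs
        · simp
        · beta_reduce; ring
        · simp }
    2 (by
      intro f
      refine (BoundedContinuousFunction.norm_le (by positivity)).mpr ?_
      intro il
      exact Sraw_le d f il)

lemma SS_apply (f : EE 𝕜) (il : ℕ × ℕ) : SS d f il = Sraw d f il := rfl

lemma SS_J (x : 𝕜[X] × 𝕜[X]) : SS d (J d x) = J d (sh 1 x) := by
  ext ⟨i, l⟩
  rw [SS_apply, J_apply]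
  unfold Sraw
  simp only [J_apply]
  unfold Jraw
  simp only
  rw [dotp_sh, coeff_X_pow_mul']
  rcases Nat.eq_zero_or_pos l with rfl | hl
  · simp
  · by_cases hP : d.P (i + 1) ≤ l
    · rw [if_pos (Or.inr hP), if_neg (by omega)]
    · rw [if_neg (by omega), if_pos (by omega : l - 1 < d.P (i + 1)), if_pos (by omega : l < d.P (i + 1)),
        if_pos (by omega : 1 ≤ l)]
      by_cases hl2 : l ≤ d.P i
      · rw [if_pos hl2]
        have : d.P i - (l - 1) = (d.P i - l) + 1 := by omega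
        rw [this, pow_succ, mul_inv]
        have h2 : (2 : 𝕜) ≠ 0 := two_ne_zero
        field_simp
      · rw [if_neg hl2]
        have h1 : d.P i - (l - 1) = 0 := by omega
        have h2 : d.P i - l = 0 := by omega
        rw [h1, h2, one_mul]

lemma SS_pow_J (n : ℕ) (x : 𝕜[X] × 𝕜[X]) : ((SS d) ^ n) (J d x) = J d (sh n x) := by
  induction n with
  | zero => rw [sh_zero]; rfl
  | succ n ih =>
    rw [pow_succ', mul_apply_eq_comp, ih, SS_J, sh_sh, add_comm]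

/-- The functionals `ξ`. -/
lemma SS_pow_diag (f : EE 𝕜) (j : ℕ) (l : ℕ) (hl : l < d.P (j + 1)) :
    ((SS d) ^ l) f (j, l) = (2 : 𝕜) ^ (min l (d.P j)) * f (j, 0) := by
  induction l with
  | zero => simp
  | succ l ih =>
    rw [pow_succ', mul_apply_eq_comp, SS_apply]
    unfold Sraw
    simp only [Nat.add_sub_cancel]
    rw [if_neg (by omega), ih (by omega)]
    by_cases h : l + 1 ≤ d.P j
    · rw [if_pos h, min_eq_left h, min_eq_left (by omega : l ≤ d.P j), pow_succ]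
      ring
    · rw [if_neg h, min_eq_right (by omega : d.P j ≤ l + 1), min_eq_right (by omega : d.P j ≤ l), one_mul]

lemma lower_E (f : EE 𝕜) (j n : ℕ) (h1 : d.P j ≤ n) (h2 : n < d.P (j + 1)) :
    ‖(2 : 𝕜) ^ (d.P j) * f (j, 0)‖ ≤ ‖((SS d) ^ n) f‖ := by
  have h := SS_pow_diag d f j n h2
  rw [min_eq_right h1] at h
  rw [← h]
  exact (((SS d) ^ n) f).norm_coe_le_norm (j, n)

/-- The Banach space, as a closed subspace of the bounded functions. -/
noncomputable def XX : Submodule 𝕜 (EE 𝕜) := (LinearMap.range (J d)).topologicalClosure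

lemma XX_closed : IsClosed (XX d : Set (EE 𝕜)) := Submodule.isClosed_topologicalClosure _

instance : CompleteSpace (XX d) := (XX_closed d).completeSpace_coe

lemma J_mem (x : 𝕜[X] × 𝕜[X]) : J d x ∈ XX d :=
  Submodule.le_topologicalClosure _ ⟨x, rfl⟩

instance : TopologicalSpace.SeparableSpace (XX d) := by
  have h1 : (⊤ : Submodule 𝕜 (𝕜[X] × 𝕜[X])) =
      Submodule.span 𝕜 (Set.range (fun n : ℕ => ((X ^ n, 0) : 𝕜[X] × 𝕜[X])) ∪
        Set.range (fun n : ℕ => ((0, X ^ n) : 𝕜[X] × 𝕜[X]))) := by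
    symm
    rw [eq_top_iff]
    have hl : ∀ p : 𝕜[X], LinearMap.inl 𝕜 𝕜[X] 𝕜[X] p ∈
        Submodule.span 𝕜 (Set.range (fun n : ℕ => ((X ^ n, 0) : 𝕜[X] × 𝕜[X])) ∪
        Set.range (fun n : ℕ => ((0, X ^ n) : 𝕜[X] × 𝕜[X]))) := by
      intro p
      induction p using Polynomial.induction_on' with
      | add p q hp hq => rw [map_add]; exact Submodule.add_mem _ hp hq
      | monomial n a =>
        have : LinearMap.inl 𝕜 𝕜[X] 𝕜[X] (monomial n a) = a • ((X ^ n, 0) : 𝕜[X] × 𝕜[X]) := by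
          simp [← C_mul_X_pow_eq_monomial, smul_eq_C_mul]
        rw [this]
        exact Submodule.smul_mem _ _ (Submodule.subset_span (Or.inl ⟨n, rfl⟩))
    have hr : ∀ p : 𝕜[X], LinearMap.inr 𝕜 𝕜[X] 𝕜[X] p ∈
        Submodule.span 𝕜 (Set.range (fun n : ℕ => ((X ^ n, 0) : 𝕜[X] × 𝕜[X])) ∪
        Set.range (fun n : ℕ => ((0, X ^ n) : 𝕜[X] × 𝕜[X]))) := by
      intro p
      induction p using Polynomial.induction_on' with
      | add p q hp hq => rw [map_add]; exact Submodule.add_mem _ hp hq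
      | monomial n a =>
        have : LinearMap.inr 𝕜 𝕜[X] 𝕜[X] (monomial n a) = a • ((0, X ^ n) : 𝕜[X] × 𝕜[X]) := by
          simp [← C_mul_X_pow_eq_monomial, smul_eq_C_mul]
        rw [this]
        exact Submodule.smul_mem _ _ (Submodule.subset_span (Or.inr ⟨n, rfl⟩))
    rintro ⟨p, q⟩ _
    have e : ((p, q) : 𝕜[X] × 𝕜[X]) = LinearMap.inl 𝕜 𝕜[X] 𝕜[X] p + LinearMap.inr 𝕜 𝕜[X] 𝕜[X] q := by
      simp
    rw [e]
    exact Submodule.add_mem _ (hl p) (hr q)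
  have h2 : TopologicalSpace.IsSeparable (LinearMap.range (J d) : Set (EE 𝕜)) := by
    rw [LinearMap.range_eq_map, h1, Submodule.map_span]
    apply TopologicalSpace.IsSeparable.span
    apply Set.Countable.isSeparable
    exact ((Set.countable_range _).union (Set.countable_range _)).image _
  have h3 : TopologicalSpace.IsSeparable (XX d : Set (EE 𝕜)) := by
    have : (XX d : Set (EE 𝕜)) = closure (LinearMap.range (J d) : Set (EE 𝕜)) :=
      Submodule.topologicalClosure_coe _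
    rw [this]
    exact h2.closure
  exact h3.separableSpace

lemma SS_mem (f : EE 𝕜) (hf : f ∈ XX d) : SS d f ∈ XX d := by
  have hf' : f ∈ closure (LinearMap.range (J d) : Set (EE 𝕜)) := by
    have h : (XX d : Set (EE 𝕜)) = closure (LinearMap.range (J d) : Set (EE 𝕜)) :=
      Submodule.topologicalClosure_coe _
    rw [← h]; exact hf
  have : SS d f ∈ closure (LinearMap.range (J d) : Set (EE 𝕜)) := by
    refine map_mem_closure (SS d).continuous hf' ?_
    rintro _ ⟨x, rfl⟩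
    exact ⟨sh 1 x, (SS_J d x).symm⟩
  rw [← Submodule.topologicalClosure_coe] at this
  exact this

/-- The operator. -/
noncomputable def TT : XX d →L[𝕜] XX d :=
  ((SS d).comp (XX d).subtypeL).codRestrict (XX d) (fun f => SS_mem d f.1 f.2)

lemma TT_coe (f : XX d) : ((TT d f : XX d) : EE 𝕜) = SS d f := rfl

lemma TT_pow_coe (n : ℕ) (f : XX d) : (((TT d) ^ n) f : EE 𝕜) = ((SS d) ^ n) f := by
  induction n with
  | zero => rfl
  | succ n ih =>
    rw [pow_succ', pow_succ', mul_apply_eq_comp, mul_apply_eq_comp, TT_coe, ih]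

/-- elements of the manifold -/
noncomputable def JX (x : 𝕜[X] × 𝕜[X]) : XX d := ⟨J d x, J_mem d x⟩

lemma norm_TT_pow (n : ℕ) (f : XX d) : ‖((TT d) ^ n) f‖ = ‖((SS d) ^ n) (f : EE 𝕜)‖ := by
  rw [← TT_pow_coe]; rfl

lemma norm_TT_pow_JX (n : ℕ) (x : 𝕜[X] × 𝕜[X]) : ‖((TT d) ^ n) (JX d x)‖ = ‖J d (sh n x)‖ := by
  rw [norm_TT_pow, ← SS_pow_J]; rfl

/-- factorisation -/
lemma exists_order (x : 𝕜[X] × 𝕜[X]) (hx : x ≠ 0) :
    ∃ b y, x = sh b y ∧ (y.1.coeff 0 ≠ 0 ∨ y.2.coeff 0 ≠ 0) := by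
  classical
  have hex : ∃ k, x.1.coeff k ≠ 0 ∨ x.2.coeff k ≠ 0 := by
    by_contra hcon
    push Not at hcon
    apply hx
    ext k
    · exact (hcon k).1
    · exact (hcon k).2
  obtain ⟨hb, hmin⟩ : (x.1.coeff (Nat.find hex) ≠ 0 ∨ x.2.coeff (Nat.find hex) ≠ 0) ∧
      ∀ k < Nat.find hex, x.1.coeff k = 0 ∧ x.2.coeff k = 0 := by
    refine ⟨Nat.find_spec hex, fun k hk => ?_⟩
    have := Nat.find_min hex hk
    push Not at this
    exact this
  generalize Nat.find hex = b at hb hmin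
  obtain ⟨y1, hy1⟩ := X_pow_dvd_iff.mpr (fun k hk => (hmin k hk).1)
  obtain ⟨y2, hy2⟩ := X_pow_dvd_iff.mpr (fun k hk => (hmin k hk).2)
  refine ⟨b, (y1, y2), Prod.ext hy1 hy2, ?_⟩
  rw [hy1, hy2, coeff_X_pow_mul', coeff_X_pow_mul'] at hb
  simpa using hb

lemma norm_le_of_forall (f : EE 𝕜) (C : ℝ) (hC : 0 ≤ C) (h : ∀ i l, ‖f (i, l)‖ ≤ C) : ‖f‖ ≤ C :=
  (BoundedContinuousFunction.norm_le hC).mpr fun il => h il.1 il.2

/-- Smallness at good times. -/
lemma small_times (x : 𝕜[X] × 𝕜[X]) (hx : 2 ≤ ‖x.1.coeff 0‖ ∨ 2 ≤ ‖x.2.coeff 0‖) (ε : ℝ) (hε : 0 < ε)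
    (N : ℕ) : ∃ n ≥ N, ‖J d (sh n x)‖ ≤ ε := by
  set dx := max x.1.natDegree x.2.natDegree with hdx
  have hL := L2_nonneg x
  have hη : 0 < ε / (L2 x + 1) := by positivity
  -- large index so that the tail is small
  obtain ⟨N1, hN1⟩ : ∃ N1 : ℕ, ∀ i ≥ N1, 1 / 2 ^ i * L2 x ≤ ε := by
    obtain ⟨N1, hN1⟩ := pow_unbounded_of_one_lt (L2 x / ε) (one_lt_two (α := ℝ))
    refine ⟨N1, fun i hi => ?_⟩
    have h1 : (2 : ℝ) ^ N1 ≤ 2 ^ i := pow_le_pow_right₀ one_le_two hi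
    rw [one_div, inv_mul_le_iff₀ (by positivity)]
    rw [div_lt_iff₀ hε] at hN1
    nlinarith
  obtain ⟨j, hj, hja⟩ := d.happ x hx (ε / (L2 x + 1)) hη (max N (max N1 dx))
  have hjN : N ≤ j := (le_max_left _ _).trans hj
  have hjN1 : N1 ≤ j := (le_max_left _ _).trans ((le_max_right _ _).trans hj)
  have hjdx : dx ≤ j := (le_max_right _ _).trans ((le_max_right _ _).trans hj)
  refine ⟨d.P j, hjN.trans ((P_strictMono d).id_le j), ?_⟩
  refine norm_le_of_forall _ _ hε.le fun i l => ?_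
  rcases lt_trichotomy j i with h | h | h
  · refine (Jraw_sh_small d x dx (le_max_left _ _) (le_max_right _ _) j i (d.P j) l h (by omega) le_rfl).trans ?_
    exact hN1 i (by omega)
  · subst h
    rw [J_apply]
    unfold Jraw
    simp only
    split_ifs
    · rw [dotp_sh, coeff_X_pow_mul']
      split_ifs
      · rw [norm_mul]
        have e : dotp (d.a j) x = ((d.a j).1 - x.2) * x.1 + ((d.a j).2 + x.1) * x.2 := by
          simp only [dotp]; ring
        have h1 := coeff_mul_le ((d.a j).1 - x.2) x.1 _ (fun k => (hja k).1) (l - d.P j)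
        have h2 := coeff_mul_le ((d.a j).2 + x.1) x.2 _ (fun k => (hja k).2) (l - d.P j)
        calc _ ≤ 1 * ‖(dotp (d.a j) x).coeff (l - d.P j)‖ :=
              mul_le_mul_of_nonneg_right (norm_inv_two_pow_le _) (norm_nonneg _)
          _ ≤ ε / (L2 x + 1) * LL x.1 + ε / (L2 x + 1) * LL x.2 := by
              rw [one_mul, e, coeff_add]
              exact (norm_add_le _ _).trans (add_le_add h1 h2)
          _ = ε * (L2 x / (L2 x + 1)) := by rw [L2]; ring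
          _ ≤ ε * 1 := by
              gcongr
              rw [div_le_one (by positivity)]
              linarith
          _ = ε := mul_one _
      · simpa using hε.le
    · simpa using hε.le
  · -- earlier blocks see nothing
    rw [J_apply]
    unfold Jraw
    simp only
    have hPi : d.P (i + 1) ≤ d.P j := (P_strictMono d).monotone (by omega)
    split_ifs with hl
    · rw [dotp_sh, coeff_X_pow_mul', if_neg (by omega)]
      simpa using hε.le
    · simpa using hε.le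

/-- Largeness at other times. -/
lemma large_times (x : 𝕜[X] × 𝕜[X]) (hx : x.1.coeff 0 ≠ 0 ∨ x.2.coeff 0 ≠ 0) (R : ℝ)
    (N : ℕ) : ∃ n ≥ N, R ≤ ‖J d (sh n x)‖ := by
  have key : ∀ j, ‖(dotp (d.a j) x).coeff 0‖ ≤ ‖J d (sh (d.P j) x)‖ := by
    intro j
    have h := (J d (sh (d.P j) x)).norm_coe_le_norm (j, d.P j)
    rw [J_apply] at h
    unfold Jraw at h
    simp only at h
    rw [if_pos (P_lt_succ d j), dotp_sh, coeff_X_pow_mul'] at h
    simpa using h
  rcases hx with hx | hx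
  · obtain ⟨j, hj, c, hc, hja⟩ := d.hbig1 (R / ‖x.1.coeff 0‖) N
    refine ⟨d.P j, hj.trans ((P_strictMono d).id_le j), ?_⟩
    refine le_trans ?_ (key j)
    have hpos : 0 < ‖x.1.coeff 0‖ := norm_pos_iff.mpr hx
    rw [div_le_iff₀ hpos] at hc
    rw [hja, dotp]
    simpa using hc
  · obtain ⟨j, hj, c, hc, hja⟩ := d.hbig2 (R / ‖x.2.coeff 0‖) N
    refine ⟨d.P j, hj.trans ((P_strictMono d).id_le j), ?_⟩
    refine le_trans ?_ (key j)
    have hpos : 0 < ‖x.2.coeff 0‖ := norm_pos_iff.mpr hx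
    rw [div_le_iff₀ hpos] at hc
    rw [hja, dotp]
    simpa using hc

lemma sh_smul (c : 𝕜) (n : ℕ) (x : 𝕜[X] × 𝕜[X]) : sh n (c • x) = c • sh n x := by
  simp [sh]

lemma irregular (x : 𝕜[X] × 𝕜[X]) (hx : x ≠ 0) : IsIrregular (TT d) (JX d x) := by
  obtain ⟨b, y, rfl, hy⟩ := exists_order x hx
  have hnorm : ∀ n, ‖((TT d) ^ n) (JX d (sh b y))‖ = ‖J d (sh (n + b) y)‖ := by
    intro n
    rw [norm_TT_pow_JX, sh_sh]
  constructor
  · -- liminf
    obtain ⟨c, hc0, hc⟩ : ∃ c : 𝕜, c ≠ 0 ∧ (2 ≤ ‖(c • y).1.coeff 0‖ ∨ 2 ≤ ‖(c • y).2.coeff 0‖) := by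
      rcases hy with hy | hy
      · refine ⟨2 / y.1.coeff 0, div_ne_zero two_ne_zero hy, Or.inl ?_⟩
        simp [coeff_smul, div_mul_cancel₀ _ hy]
      · refine ⟨2 / y.2.coeff 0, div_ne_zero two_ne_zero hy, Or.inr ?_⟩
        simp [coeff_smul, div_mul_cancel₀ _ hy]
    have hcpos : 0 < ‖c‖ := norm_pos_iff.mpr hc0
    refine le_antisymm ?_ bot_le
    refine le_of_forall_pos_le_add fun ε hε => ?_
    rw [zero_add]
    rcases eq_or_ne ε ⊤ with rfl | htop
    · exact le_top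
    have hε' : 0 < ε.toReal := ENNReal.toReal_pos hε.ne' htop
    refine liminf_le_of_frequently_le' ?_
    rw [frequently_atTop]
    intro N
    obtain ⟨n, hn, hle⟩ := small_times d (c • y) hc (ε.toReal * ‖c‖) (by positivity) (N + b)
    refine ⟨n - b, by omega, ?_⟩
    have h1 : ‖((TT d) ^ (n - b)) (JX d (sh b y))‖ ≤ ε.toReal := by
      rw [hnorm, Nat.sub_add_cancel (by omega)]
      rw [sh_smul, map_smul, norm_smul, mul_comm] at hle
      exact le_of_mul_le_mul_right hle hcpos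
    rw [← ofReal_norm]
    exact ENNReal.ofReal_le_of_le_toReal h1
  · -- limsup
    rw [eq_top_iff]
    refine le_of_forall_lt fun R hR => ?_
    have hR' : R ≤ limsup (fun n : ℕ => ‖((TT d) ^ n) (JX d (sh b y))‖ₑ) atTop → R < ⊤ := fun _ => hR
    obtain ⟨R1, hR1, hR2⟩ := exists_between hR
    refine lt_of_lt_of_le hR1 ?_
    refine le_limsup_of_frequently_le' ?_
    rw [frequently_atTop]
    intro N
    obtain ⟨n, hn, hle⟩ := large_times d y hy R1.toReal (N + b)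
    refine ⟨n - b, by omega, ?_⟩
    rw [← ofReal_norm, hnorm, Nat.sub_add_cancel (by omega)]
    exact (ENNReal.le_ofReal_iff_toReal_le hR2.ne (norm_nonneg _)).mpr hle

lemma dense_manifold : AdmitsDenseIrregularManifold (TT d) := by
  refine ⟨(LinearMap.range (J d)).comap (XX d).subtype, ?_, ?_⟩
  · intro f
    rw [Metric.mem_closure_iff]
    intro ε hε
    have hf : (f : EE 𝕜) ∈ closure (LinearMap.range (J d) : Set (EE 𝕜)) := by
      have h : (XX d : Set (EE 𝕜)) = closure (LinearMap.range (J d) : Set (EE 𝕜)) :=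
        Submodule.topologicalClosure_coe _
      rw [← h]; exact f.2
    obtain ⟨_, ⟨x, rfl⟩, hx⟩ := Metric.mem_closure_iff.mp hf ε hε
    exact ⟨JX d x, ⟨x, rfl⟩, hx⟩
  · rintro y ⟨x, hx⟩ hy
    have e : y = JX d x := Subtype.ext hx.symm
    subst e
    refine irregular d x ?_
    rintro rfl
    exact hy (Subtype.ext (map_zero _))

/-- every time lies in a block -/
lemma exists_block (n : ℕ) : ∃ j, d.P j ≤ n ∧ n < d.P (j + 1) := by
  induction n with
  | zero => exact ⟨0, by rw [d.hP0], lt_of_le_of_lt (Nat.zero_le _) (P_lt_succ d 0)⟩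
  | succ n ih =>
    obtain ⟨j, h1, h2⟩ := ih
    by_cases h : n + 1 < d.P (j + 1)
    · exact ⟨j, by omega, h⟩
    · exact ⟨j + 1, by omega, by have := P_lt_succ d (j + 1); omega⟩

/-- the functionals -/
noncomputable def xi (j : ℕ) (f : EE 𝕜) : 𝕜 := (2 : 𝕜) ^ (d.P j) * f (j, 0)

lemma xi_J (j : ℕ) (x : 𝕜[X] × 𝕜[X]) : xi d j (J d x) =
    (d.a j).1.coeff 0 * x.1.coeff 0 + (d.a j).2.coeff 0 * x.2.coeff 0 := by
  unfold xi
  rw [J_apply]
  unfold Jraw
  simp only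
  rw [if_pos (lt_of_le_of_lt (Nat.zero_le _) (P_lt_succ d j)), Nat.sub_zero,
    mul_inv_cancel_left₀ (pow_ne_zero _ two_ne_zero)]
  simp [dotp, mul_coeff_zero]

lemma xi_continuous (j : ℕ) : Continuous (xi d j) := by
  unfold xi
  exact continuous_const.mul (BoundedContinuousFunction.evalCLM 𝕜 ((j, 0) : ℕ × ℕ)).continuous

lemma xi_sub (j : ℕ) (f g : EE 𝕜) : xi d j (f - g) = xi d j f - xi d j g := by
  unfold xi
  rw [BoundedContinuousFunction.coe_sub, Pi.sub_apply, mul_sub]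

omit d in
lemma plane_ineq (α β u1 u2 v1 v2 : 𝕜) (h11 : ‖u1 - 1‖ ≤ 1 / 8) (h12 : ‖u2‖ ≤ 1 / 8)
    (h21 : ‖v1‖ ≤ 1 / 8) (h22 : ‖v2 - 1‖ ≤ 1 / 8) (hA : ‖α * u1 + β * u2‖ ≤ 1 / 4)
    (hB : ‖α * v1 + β * v2‖ ≤ 1 / 4) (hab : 1 ≤ ‖α‖ ∨ 1 ≤ ‖β‖) : False := by
  have hα1 : ‖α‖ ≤ 1 / 4 + ‖α‖ * (1 / 8) + ‖β‖ * (1 / 8) := by
    have e : α = (α * u1 + β * u2) - α * (u1 - 1) - β * u2 := by ring
    calc ‖α‖ = ‖(α * u1 + β * u2) - α * (u1 - 1) - β * u2‖ := by rw [← e]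
      _ ≤ ‖(α * u1 + β * u2) - α * (u1 - 1)‖ + ‖β * u2‖ := norm_sub_le _ _
      _ ≤ ‖α * u1 + β * u2‖ + ‖α * (u1 - 1)‖ + ‖β * u2‖ := by
          have := norm_sub_le (α * u1 + β * u2) (α * (u1 - 1))
          linarith
      _ ≤ 1 / 4 + ‖α‖ * (1 / 8) + ‖β‖ * (1 / 8) := by
          rw [norm_mul α, norm_mul β u2]
          gcongr
  have hβ1 : ‖β‖ ≤ 1 / 4 + ‖α‖ * (1 / 8) + ‖β‖ * (1 / 8) := by
    have e : β = (α * v1 + β * v2) - α * v1 - β * (v2 - 1) := by ring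
    calc ‖β‖ = ‖(α * v1 + β * v2) - α * v1 - β * (v2 - 1)‖ := by rw [← e]
      _ ≤ ‖(α * v1 + β * v2) - α * v1‖ + ‖β * (v2 - 1)‖ := norm_sub_le _ _
      _ ≤ ‖α * v1 + β * v2‖ + ‖α * v1‖ + ‖β * (v2 - 1)‖ := by
          have := norm_sub_le (α * v1 + β * v2) (α * v1)
          linarith
      _ ≤ 1 / 4 + ‖α‖ * (1 / 8) + ‖β‖ * (1 / 8) := by
          rw [norm_mul α v1, norm_mul β]
          gcongr
  rcases hab with h | h
  · linarith
  · linarith

set_option maxHeartbeats 1000000 in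
lemma not_chaotic : ¬ DenselyUniformlyLiYorkeChaotic (TT d) := by
  rintro ⟨S, hS, _, ⟨y0, hy0, _⟩, p, q, _, _, hpq⟩
  -- reference indices
  obtain ⟨j1, _, c1, hc1, hj1⟩ := d.hbig1 1 0
  obtain ⟨j2, _, c2, hc2, hj2⟩ := d.hbig2 1 0
  have hc1' : c1 ≠ 0 := by
    rintro rfl; rw [norm_zero] at hc1; linarith
  have hc2' : c2 ≠ 0 := by
    rintro rfl; rw [norm_zero] at hc2; linarith
  -- evaluation at zero
  set ev1 : EE 𝕜 → 𝕜 := fun f => c1⁻¹ * xi d j1 f with hev1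
  set ev2 : EE 𝕜 → 𝕜 := fun f => c2⁻¹ * xi d j2 f with hev2
  have hev1J : ∀ x, ev1 (J d x) = x.1.coeff 0 := by
    intro x
    simp only [hev1, xi_J, hj1]
    simp [inv_mul_cancel_left₀ hc1']
  have hev2J : ∀ x, ev2 (J d x) = x.2.coeff 0 := by
    intro x
    simp only [hev2, xi_J, hj2]
    simp [inv_mul_cancel_left₀ hc2']
  have hev1c : Continuous ev1 := continuous_const.mul (xi_continuous d j1)
  have hev2c : Continuous ev2 := continuous_const.mul (xi_continuous d j2)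
  have hxi : ∀ j, ∀ f : XX d, xi d j f = (d.a j).1.coeff 0 * ev1 f + (d.a j).2.coeff 0 * ev2 f := by
    intro j f
    have hf : (f : EE 𝕜) ∈ closure (LinearMap.range (J d) : Set (EE 𝕜)) := by
      have h : (XX d : Set (EE 𝕜)) = closure (LinearMap.range (J d) : Set (EE 𝕜)) :=
        Submodule.topologicalClosure_coe _
      rw [← h]; exact f.2
    have hcl : IsClosed {g : EE 𝕜 | xi d j g = (d.a j).1.coeff 0 * ev1 g + (d.a j).2.coeff 0 * ev2 g} :=
      isClosed_eq (xi_continuous d j) ((continuous_const.mul hev1c).add (continuous_const.mul hev2c))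
    have hsub : (LinearMap.range (J d) : Set (EE 𝕜)) ⊆
        {g : EE 𝕜 | xi d j g = (d.a j).1.coeff 0 * ev1 g + (d.a j).2.coeff 0 * ev2 g} := by
      rintro _ ⟨x, rfl⟩
      show xi d j (J d x) = _
      rw [xi_J, hev1J, hev2J]
    exact hcl.closure_subset_iff.mpr hsub hf
  -- choose two points of S
  have hchoose : ∀ x : 𝕜[X] × 𝕜[X], ∃ f ∈ S, ‖ev1 ((f - y0 : XX d) : EE 𝕜) - x.1.coeff 0‖ < 1 / 8 ∧
      ‖ev2 ((f - y0 : XX d) : EE 𝕜) - x.2.coeff 0‖ < 1 / 8 := by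
    intro x
    have hopen : IsOpen {f : XX d | ‖ev1 ((f - y0 : XX d) : EE 𝕜) - x.1.coeff 0‖ < 1 / 8 ∧
      ‖ev2 ((f - y0 : XX d) : EE 𝕜) - x.2.coeff 0‖ < 1 / 8} := by
      have hsubc : Continuous (fun f : XX d => ((f - y0 : XX d) : EE 𝕜)) :=
        continuous_subtype_val.comp (continuous_id.sub continuous_const)
      refine IsOpen.inter ?_ ?_
      · exact isOpen_lt ((hev1c.comp hsubc).sub continuous_const).norm continuous_const
      · exact isOpen_lt ((hev2c.comp hsubc).sub continuous_const).norm continuous_const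
    have hne : {f : XX d | ‖ev1 ((f - y0 : XX d) : EE 𝕜) - x.1.coeff 0‖ < 1 / 8 ∧
      ‖ev2 ((f - y0 : XX d) : EE 𝕜) - x.2.coeff 0‖ < 1 / 8}.Nonempty := by
      refine ⟨JX d x + y0, ?_⟩
      have e : ((JX d x + y0 - y0 : XX d) : EE 𝕜) = J d x := by
        rw [add_sub_cancel_right]; rfl
      show _ ∧ _
      rw [e, hev1J, hev2J]
      simp
    obtain ⟨f, hf1, hf2⟩ := hS.inter_open_nonempty _ hopen hne
    exact ⟨f, hf2, hf1⟩
  obtain ⟨f1, hf1S, h11, h12⟩ := hchoose (1, 0)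
  obtain ⟨f2, hf2S, h21, h22⟩ := hchoose (0, 1)
  simp only [coeff_zero, sub_zero, coeff_one_zero] at h11 h12 h21 h22
  have hne1 : f1 ≠ y0 := by
    rintro rfl
    have : ev1 ((f1 - f1 : XX d) : EE 𝕜) = 0 := by
      simp [hev1, xi]
    rw [this] at h11
    norm_num at h11
  have hne2 : f2 ≠ y0 := by
    rintro rfl
    have : ev2 ((f2 - f2 : XX d) : EE 𝕜) = 0 := by
      simp [hev2, xi]
    rw [this] at h22
    norm_num at h22
  have hlim1 := (hpq f1 hf1S y0 hy0 hne1).1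
  have hlim2 := (hpq f2 hf2S y0 hy0 hne2).1
  have ev : ∀ᶠ n in atTop, ‖((TT d) ^ p n) f1 - ((TT d) ^ p n) y0‖ < 1 / 4 ∧
      ‖((TT d) ^ p n) f2 - ((TT d) ^ p n) y0‖ < 1 / 4 :=
    (hlim1.eventually (gt_mem_nhds (by norm_num))).and (hlim2.eventually (gt_mem_nhds (by norm_num)))
  obtain ⟨n, hn1, hn2⟩ := ev.exists
  obtain ⟨j, hj1', hj2'⟩ := exists_block d (p n)
  have hlow : ∀ f : XX d, ‖((TT d) ^ p n) f - ((TT d) ^ p n) y0‖ < 1 / 4 →
      ‖(d.a j).1.coeff 0 * ev1 ((f - y0 : XX d) : EE 𝕜) + (d.a j).2.coeff 0 * ev2 ((f - y0 : XX d) : EE 𝕜)‖ < 1 / 4 := by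
    intro f hf
    rw [← map_sub, norm_TT_pow] at hf
    have h1 := lower_E d ((f - y0 : XX d) : EE 𝕜) j (p n) hj1' hj2'
    have h2 := hxi j (f - y0)
    unfold xi at h2
    rw [h2] at h1
    exact lt_of_le_of_lt h1 hf
  have hA := hlow f1 hn1
  have hB := hlow f2 hn2
  exact plane_ineq _ _ _ _ _ _ h11.le h12.le h21.le h22.le hA.le hB.le (d.ha j)

end Construction

lemma nontrivial_XX {𝕜 : Type} [RCLike 𝕜] (d : Data 𝕜) : Nontrivial (XX d) := by
  refine ⟨JX d (1, 0), 0, fun h0 => ?_⟩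
  have h1 := (irregular d ((1 : 𝕜[X]), (0 : 𝕜[X]))
    (fun h => one_ne_zero (congrArg Prod.fst h))).2
  rw [h0] at h1
  simp at h1

/-- For `𝕜 = ℝ` or `ℂ` there is a nonzero separable Banach space with an operator admitting a dense
irregular manifold which is not densely uniformly Li-Yorke chaotic. -/
theorem result (𝕜 : Type) [RCLike 𝕜] :
    ∃ (X : Type) (_ : NormedAddCommGroup X) (_ : NormedSpace 𝕜 X) (_ : CompleteSpace X)
      (_ : TopologicalSpace.SeparableSpace X) (_ : Nontrivial X) (T : X →L[𝕜] X),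
      AdmitsDenseIrregularManifold T ∧ ¬ DenselyUniformlyLiYorkeChaotic T := by
  obtain ⟨d⟩ := exists_data (𝕜 := 𝕜)
  exact ⟨XX d, inferInstance, inferInstance, inferInstance, inferInstance, nontrivial_XX d, TT d,
    dense_manifold d, not_chaotic d⟩

end Pool.Agent.Results.MP_515085_an.SeparableExample
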